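import Mathlib
import Pool.Agent.Sq3.Wide

set_option autoImplicit false

namespace Pool.Agent.Results.MP_7e8075_nt.WideWindows

open Pool.Agent.Sq3

lemma not_seven_dvd_two_pow (j : ℕ) : ¬ 7 ∣ 2 ^ j := by
  intro h
  have := (Nat.Prime.dvd_of_dvd_pow (by norm_num : Nat.Prime 7) h)
  omega

lemma exp_big (t e m : ℕ) (hm : 1 ≤ m) (h : 10 * (2 ^ t * m) ^ 2 ≤ (2 ^ e) ^ 2) : t + 2 ≤ e := by
  by_contra hcon
  have h1 : e ≤ t + 1 := by omega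
  have h2 : 2 ^ e ≤ 2 ^ t * 2 := by
    calc 2 ^ e ≤ 2 ^ (t + 1) := Nat.pow_le_pow_right (by norm_num) h1
      _ = 2 ^ t * 2 := pow_succ _ _
  have h4 : (2 ^ e) ^ 2 ≤ (2 ^ t * 2) ^ 2 := Nat.pow_le_pow_left h2 2
  have h5 : 1 ≤ m ^ 2 := Nat.one_le_pow _ _ hm
  have h6 : (2 ^ t) ^ 2 ≤ (2 ^ t) ^ 2 * m ^ 2 := Nat.le_mul_of_pos_right _ h5
  have h7 : 0 < (2 ^ t) ^ 2 := by positivity
  have h8 : (2 ^ t * m) ^ 2 = (2 ^ t) ^ 2 * m ^ 2 := by ring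
  have h9 : (2 ^ t * 2) ^ 2 = 4 * (2 ^ t) ^ 2 := by ring
  omega

lemma four_dvd (j : ℕ) : 2 ^ (j + 2) % 4 = 0 := by
  rw [pow_add]; exact Nat.mul_mod_left _ _

/-- odd `n` -/
lemma odd_case (n e : ℕ) (hn : n % 2 = 1) (h77 : 77 * n ^ 2 ≤ 6 * (2 ^ e) ^ 2)
    (h14 : (2 ^ e) ^ 2 ≤ 14 * n ^ 2) :
    ∃ x y z w : ℕ, n ^ 2 = x ^ 2 + y ^ 2 + z ^ 2 + w ^ 2 ∧ x + 2 * y + 3 * z = 2 ^ e := by
  have h1 : 1 ≤ n := by omega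
  have he := exp_big 0 e n h1 (by
    rw [pow_zero, one_mul]
    nlinarith [Nat.zero_le (n ^ 2)])
  obtain ⟨j, rfl⟩ : ∃ j, e = j + 2 := ⟨e - 2, by omega⟩
  exact oddWindow n (2 ^ (j + 2)) hn (four_dvd j) (not_seven_dvd_two_pow _) h77 h14

/-- even `n` -/
lemma even_case (n e : ℕ) (hn : n % 2 = 0) (h10 : 10 * n ^ 2 ≤ (2 ^ e) ^ 2)
    (h14 : (2 ^ e) ^ 2 ≤ 14 * n ^ 2) :
    ∃ x y z w : ℕ, n ^ 2 = x ^ 2 + y ^ 2 + z ^ 2 + w ^ 2 ∧ x + 2 * y + 3 * z = 2 ^ e := by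
  have hn0 : n ≠ 0 := by
    rintro rfl
    have : 0 < (2 ^ e) ^ 2 := by positivity
    omega
  obtain ⟨t', m, hm, rfl⟩ := Nat.exists_eq_two_pow_mul_odd hn0
  have hm1 : 1 ≤ m := hm.pos
  have hm2 := Nat.odd_iff.mp hm
  obtain ⟨t, rfl⟩ : ∃ t, t' = t + 1 := by
    rcases Nat.eq_zero_or_pos t' with rfl | h
    · rw [pow_zero, one_mul] at hn; omega
    · exact ⟨t' - 1, by omega⟩
  have he := exp_big (t + 1) e m hm1 h10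
  obtain ⟨j, rfl⟩ : ∃ j, e = t + 1 + (j + 2) := ⟨e - t - 3, by omega⟩
  have e1 : (2 ^ (t + 1 + (j + 2))) ^ 2 = (2 ^ (t + 1)) ^ 2 * (2 ^ (j + 2)) ^ 2 := by
    rw [pow_add]; ring
  have hpos : 0 < (2 ^ (t + 1)) ^ 2 := by positivity
  have k14 : (2 ^ (j + 2)) ^ 2 ≤ 14 * m ^ 2 := by
    have h2 : 14 * (2 ^ (t + 1) * m) ^ 2 = (2 ^ (t + 1)) ^ 2 * (14 * m ^ 2) := by ring
    rw [e1, h2] at h14
    exact Nat.le_of_mul_le_mul_left h14 hpos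
  have k10 : 10 * m ^ 2 ≤ (2 ^ (j + 2)) ^ 2 := by
    have h2 : 10 * (2 ^ (t + 1) * m) ^ 2 = (2 ^ (t + 1)) ^ 2 * (10 * m ^ 2) := by ring
    rw [e1, h2] at h10
    exact Nat.le_of_mul_le_mul_left h10 hpos
  obtain ⟨x, y, z, w, h1, h2⟩ := evenWindow m (2 ^ (j + 2)) hm2 (four_dvd j)
    (not_seven_dvd_two_pow _) k10 k14
  refine ⟨2 ^ t * x, 2 ^ t * y, 2 ^ t * z, 2 ^ t * w, ?_, ?_⟩
  · have : (2 ^ (t + 1) * m) ^ 2 = (2 ^ t) ^ 2 * (2 * m) ^ 2 := by rw [pow_succ]; ring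
    rw [this, h1]; ring
  · have : 2 ^ t * x + 2 * (2 ^ t * y) + 3 * (2 ^ t * z) = 2 ^ t * (x + 2 * y + 3 * z) := by ring
    rw [this, h2, pow_add, pow_succ]; ring

/-- (1) For `n` even and `10 n^2 ≤ 16^k ≤ 14 n^2`, and (2) for `n` odd and
`77 n^2 ≤ 6 * 16^k ≤ 84 n^2`, there are non-negative integers with
`n^2 = x^2 + y^2 + z^2 + w^2` and `x + 2y + 3z = 4^k`; (3) the number of `n ≤ N` for which such a
quadruple exists for some `k` is at least `N / 42 - 2`. -/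
theorem result :
    (∀ n k : ℕ, Even n → 10 * n ^ 2 ≤ 16 ^ k → 16 ^ k ≤ 14 * n ^ 2 →
      ∃ x y z w : ℕ, n ^ 2 = x ^ 2 + y ^ 2 + z ^ 2 + w ^ 2 ∧ x + 2 * y + 3 * z = 4 ^ k) ∧
    (∀ n k : ℕ, Odd n → 77 * n ^ 2 ≤ 6 * 16 ^ k → 16 ^ k ≤ 14 * n ^ 2 →
      ∃ x y z w : ℕ, n ^ 2 = x ^ 2 + y ^ 2 + z ^ 2 + w ^ 2 ∧ x + 2 * y + 3 * z = 4 ^ k) ∧
    (∀ N : ℕ, N ≤ 42 * ({n : ℕ | 1 ≤ n ∧ n ≤ N ∧ ∃ x y z w k : ℕ,
      n ^ 2 = x ^ 2 + y ^ 2 + z ^ 2 + w ^ 2 ∧ x + 2 * y + 3 * z = 4 ^ k}.ncard + 2)) := by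
  have e16 : ∀ k : ℕ, (16 : ℕ) ^ k = (2 ^ (2 * k)) ^ 2 := by
    intro k
    rw [← pow_mul, mul_comm (2 * k) 2, ← mul_assoc, pow_mul]; norm_num
  have e4 : ∀ k : ℕ, (4 : ℕ) ^ k = 2 ^ (2 * k) := by intro k; rw [pow_mul]; norm_num
  have mainE : ∀ n k : ℕ, Even n → 10 * n ^ 2 ≤ 16 ^ k → 16 ^ k ≤ 14 * n ^ 2 →
      ∃ x y z w : ℕ, n ^ 2 = x ^ 2 + y ^ 2 + z ^ 2 + w ^ 2 ∧ x + 2 * y + 3 * z = 4 ^ k := by
    intro n k hn h1 h2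
    rw [e16] at h1 h2
    rw [e4]
    exact even_case n (2 * k) (Nat.even_iff.mp hn) h1 h2
  have mainO : ∀ n k : ℕ, Odd n → 77 * n ^ 2 ≤ 6 * 16 ^ k → 16 ^ k ≤ 14 * n ^ 2 →
      ∃ x y z w : ℕ, n ^ 2 = x ^ 2 + y ^ 2 + z ^ 2 + w ^ 2 ∧ x + 2 * y + 3 * z = 4 ^ k := by
    intro n k hn h1 h2
    rw [e16] at h1 h2
    rw [e4]
    exact odd_case n (2 * k) (Nat.odd_iff.mp hn) h1 h2
  refine ⟨mainE, mainO, ?_⟩
  intro N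
  rcases Nat.lt_or_ge N 85 with hN | hN
  · omega
  -- choose `k`
  obtain ⟨k, hk1, hk2⟩ : ∃ k : ℕ, 3162 * 4 ^ k ≤ 10000 * N ∧ 10000 * N < 3162 * 4 ^ (k + 1) := by
    have hex : ∃ j : ℕ, 10000 * N < 3162 * 4 ^ j := by
      obtain ⟨j, hj⟩ := pow_unbounded_of_one_lt (10000 * N) (by norm_num : (1:ℕ) < 4)
      exact ⟨j, by omega⟩
    classical
    have h1 := Nat.find_spec hex
    have h0 : Nat.find hex ≠ 0 := by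
      intro h0
      rw [h0] at h1
      omega
    obtain ⟨k, hk⟩ := Nat.exists_eq_succ_of_ne_zero h0
    refine ⟨k, ?_, by rw [← Nat.succ_eq_add_one, ← hk]; exact h1⟩
    have := Nat.find_min hex (m := k) (by omega)
    omega
  have hk3 : 4 ^ (k + 1) = 4 * 4 ^ k := by rw [pow_succ]; ring
  rw [hk3] at hk2
  obtain ⟨T, hT⟩ : ∃ T, T = 4 ^ k := ⟨_, rfl⟩
  rw [← hT] at hk1 hk2
  have hT16 : (16 : ℕ) ^ k = T ^ 2 := by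
    rw [hT, ← pow_mul, mul_comm k 2, pow_mul]; norm_num
  obtain ⟨L1, hL1⟩ : ∃ L1, L1 = (26727 * T + 199999) / 200000 := ⟨_, rfl⟩
  obtain ⟨U1, hU1⟩ : ∃ U1, U1 = 3162 * T / 20000 := ⟨_, rfl⟩
  obtain ⟨L2, hL2⟩ : ∃ L2, L2 = (26727 * T + 99999) / 200000 := ⟨_, rfl⟩
  obtain ⟨U2, hU2⟩ : ∃ U2, U2 = (2791 * T - 10000) / 20000 := ⟨_, rfl⟩
  have hTbig : 66 < T := by omega
  obtain ⟨S1, hS1⟩ : ∃ S1 : Finset ℕ, S1 = (Finset.Icc L1 U1).image (fun i => 2 * i) := ⟨_, rfl⟩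
  obtain ⟨S2, hS2⟩ : ∃ S2 : Finset ℕ, S2 = (Finset.Icc L2 U2).image (fun i => 2 * i + 1) :=
    ⟨_, rfl⟩
  have hc1 : S1.card = U1 + 1 - L1 := by
    rw [hS1, Finset.card_image_of_injective _ (fun a b h => by simpa using h), Nat.card_Icc]
  have hc2 : S2.card = U2 + 1 - L2 := by
    rw [hS2, Finset.card_image_of_injective _ (fun a b h => by simpa using h), Nat.card_Icc]
  have hdisj : Disjoint S1 S2 := by
    rw [Finset.disjoint_left]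
    intro a h1 h2
    rw [hS1, Finset.mem_image] at h1
    rw [hS2, Finset.mem_image] at h2
    obtain ⟨i, -, hi⟩ := h1
    obtain ⟨j, -, hj⟩ := h2
    omega
  have hsub : ((S1 ∪ S2 : Finset ℕ) : Set ℕ) ⊆ {n : ℕ | 1 ≤ n ∧ n ≤ N ∧ ∃ x y z w k : ℕ,
      n ^ 2 = x ^ 2 + y ^ 2 + z ^ 2 + w ^ 2 ∧ x + 2 * y + 3 * z = 4 ^ k} := by
    intro n hn
    rw [Finset.mem_coe, Finset.mem_union] at hn
    rcases hn with hn | hn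
    · rw [hS1, Finset.mem_image] at hn
      obtain ⟨i, hi, rfl⟩ := hn
      rw [Finset.mem_Icc] at hi
      have b1 : 26727 * T ≤ 100000 * (2 * i) := by omega
      have b2 : 10000 * (2 * i) ≤ 3162 * T := by omega
      refine ⟨by omega, by omega, ?_⟩
      obtain ⟨x, y, z, w, h1, h2⟩ := mainE (2 * i) k ⟨i, by ring⟩
        (by rw [hT16]; nlinarith) (by rw [hT16]; nlinarith)
      exact ⟨x, y, z, w, k, h1, h2⟩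
    · rw [hS2, Finset.mem_image] at hn
      obtain ⟨i, hi, rfl⟩ := hn
      rw [Finset.mem_Icc] at hi
      have b1 : 26727 * T ≤ 100000 * (2 * i + 1) := by omega
      have b2 : 10000 * (2 * i + 1) ≤ 2791 * T := by omega
      refine ⟨by omega, by omega, ?_⟩
      obtain ⟨x, y, z, w, h1, h2⟩ := mainO (2 * i + 1) k ⟨i, rfl⟩
        (by rw [hT16]; nlinarith) (by rw [hT16]; nlinarith)
      exact ⟨x, y, z, w, k, h1, h2⟩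
  have hfin : {n : ℕ | 1 ≤ n ∧ n ≤ N ∧ ∃ x y z w k : ℕ,
      n ^ 2 = x ^ 2 + y ^ 2 + z ^ 2 + w ^ 2 ∧ x + 2 * y + 3 * z = 4 ^ k}.Finite :=
    (Set.finite_Icc 1 N).subset (fun n hn => ⟨hn.1, hn.2.1⟩)
  have hcard := Set.ncard_le_ncard hsub hfin
  rw [Set.ncard_coe_finset, Finset.card_union_of_disjoint hdisj, hc1, hc2] at hcard
  omega

end Pool.Agent.Results.MP_7e8075_nt.WideWindows
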